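import Mathlib

/-!
# Arithmetic with exponentiation, `IΣ₁`, `BΣ₂`, c.e. sets and strong reducibility

All notions are stated for an arbitrary structure `M` for the language
`0, 1, +, ·, 2 ^ x, <` of arithmetic with exponentiation.
-/

set_option autoImplicit false

namespace Pool.Agent.Lib.MP_53c40f_lc

/-- Structures for the language of arithmetic `0, 1, +, ·, <` with exponentiation `exp2 x = 2 ^ x`. -/
class Arith (M : Type) extends Zero M, One M, Add M, Mul M, LT M where
  exp2 : M → M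

/-- The standard structure. -/
instance instArithNat : Arith ℕ where
  exp2 := fun n => 2 ^ n

open Arith

/-- The axioms of `PA⁻` (Peano arithmetic without induction: discretely ordered semirings in which
`x < y` implies `x + z = y` for some `z`), with the recursion equations of exponentiation. -/
structure PAMinusExp (M : Type) [Arith M] : Prop where
  add_assoc : ∀ x y z : M, x + y + z = x + (y + z)
  add_comm : ∀ x y : M, x + y = y + x
  mul_assoc : ∀ x y z : M, x * y * z = x * (y * z)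
  mul_comm : ∀ x y : M, x * y = y * x
  mul_add : ∀ x y z : M, x * (y + z) = x * y + x * z
  add_zero : ∀ x : M, x + 0 = x
  mul_zero : ∀ x : M, x * 0 = 0
  mul_one : ∀ x : M, x * 1 = x
  lt_irrefl : ∀ x : M, ¬ x < x
  lt_trans : ∀ x y z : M, x < y → y < z → x < z
  lt_total : ∀ x y : M, x < y ∨ x = y ∨ y < x
  add_lt_add : ∀ x y z : M, x < y → x + z < y + z
  mul_lt_mul : ∀ x y z : M, 0 < z → x < y → x * z < y * z
  exists_add : ∀ x y : M, x < y → ∃ z, x + z = y
  zero_lt_one : (0 : M) < 1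
  one_le : ∀ x : M, 0 < x → x = 1 ∨ 1 < x
  zero_le : ∀ x : M, x = 0 ∨ 0 < x
  exp2_zero : exp2 (0 : M) = 1
  exp2_succ : ∀ x : M, exp2 (x + 1) = exp2 x + exp2 x

/-- Terms of the language, with variables `x₀, …, xₙ₋₁`. -/
inductive Tm (n : ℕ) : Type
  | var (i : Fin n) : Tm n
  | zero : Tm n
  | one : Tm n
  | add (s t : Tm n) : Tm n
  | mul (s t : Tm n) : Tm n
  | exp (t : Tm n) : Tm n

/-- `Δ₀` formulas with free variables among `x₀, …, xₙ₋₁`.  In `ball t φ`, the bounded quantifier
`∀ x < t, φ`, the quantified variable is `x₀` of `φ`, and the variable `xᵢ` of the context is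
`xᵢ₊₁` of `φ`. -/
inductive D0 : ℕ → Type
  | eq {n : ℕ} (s t : Tm n) : D0 n
  | lt {n : ℕ} (s t : Tm n) : D0 n
  | neg {n : ℕ} (φ : D0 n) : D0 n
  | and {n : ℕ} (φ ψ : D0 n) : D0 n
  | ball {n : ℕ} (t : Tm n) (φ : D0 (n + 1)) : D0 n

section semantics

variable {M : Type} [Arith M]

/-- Assignments: `a ∷ v` gives the value `a` to `x₀` and `v i` to `xᵢ₊₁`. -/
def acons {n : ℕ} (a : M) (v : Fin n → M) : Fin (n + 1) → M := Fin.cons a v

/-- The value of a term. -/
def Tm.eval {n : ℕ} (v : Fin n → M) : Tm n → M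
  | .var i => v i
  | .zero => 0
  | .one => 1
  | .add s t => s.eval v + t.eval v
  | .mul s t => s.eval v * t.eval v
  | .exp t => exp2 (t.eval v)

/-- Truth of a `Δ₀` formula. -/
def D0.eval : {n : ℕ} → D0 n → (Fin n → M) → Prop
  | _, .eq s t, v => s.eval v = t.eval v
  | _, .lt s t, v => s.eval v < t.eval v
  | _, .neg φ, v => ¬ φ.eval v
  | _, .and φ ψ, v => φ.eval v ∧ ψ.eval v
  | _, .ball t φ, v => ∀ a : M, a < t.eval v → φ.eval (acons a v)

/-- Truth of the `Σ₁` formula `∃ y, φ(y, v)`. -/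
def S1 {n : ℕ} (φ : D0 (n + 1)) (v : Fin n → M) : Prop := ∃ y : M, φ.eval (acons y v)

/-- Truth of the `Σ₂` formula `∃ y, ∀ z, φ(z, y, v)`. -/
def S2 {n : ℕ} (φ : D0 (n + 2)) (v : Fin n → M) : Prop :=
  ∃ y : M, ∀ z : M, φ.eval (acons z (acons y v))

end semantics

section notions

variable (M : Type) [Arith M]

/-- `IΣ₁`: induction for `Σ₁` formulas with parameters. -/
def ISigma1 : Prop :=
  ∀ (n : ℕ) (φ : D0 (n + 2)) (v : Fin n → M),
    S1 φ (acons 0 v) → (∀ x : M, S1 φ (acons x v) → S1 φ (acons (x + 1) v)) →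
      ∀ x : M, S1 φ (acons x v)

/-- `BΣ₂`: collection for `Σ₂` formulas `ψ(u, w)` with parameters. -/
def BSigma2 : Prop :=
  ∀ (n : ℕ) (ψ : D0 (n + 4)) (v : Fin n → M) (b : M),
    (∀ u : M, u < b → ∃ w : M, S2 ψ (acons u (acons w v))) →
      ∃ s : M, ∀ u : M, u < b → ∃ w : M, w < s ∧ S2 ψ (acons u (acons w v))

variable {M}

/-- `x` belongs to the `M`-finite set with code `a`: the `x`-th binary digit of `a` is `1`. -/
def Mem (x a : M) : Prop := ∃ q r : M, a = (q + q + 1) * exp2 x + r ∧ r < exp2 x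

/-- The `M`-finite set with code `a` is contained in `A`. -/
def Sub (a : M) (A : Set M) : Prop := ∀ x : M, Mem x a → x ∈ A

/-- The `M`-finite set with code `a` is disjoint from `A`. -/
def Disj (a : M) (A : Set M) : Prop := ∀ x : M, Mem x a → x ∉ A

/-- `A` is c.e.: it is `Σ₁`-definable with parameters. -/
def CE (A : Set M) : Prop :=
  ∃ (n : ℕ) (φ : D0 (n + 2)) (v : Fin n → M), ∀ x : M, x ∈ A ↔ S1 φ (acons x v)

/-- `A` is strongly reducible to `B`: there is a `Σ₁`-definable (with parameters) relation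
`W(K, i, P, N)` such that, for every `M`-finite set `K`, `K ⊆ A` if and only if `W(K, 1, P, N)` for
some `M`-finite `P ⊆ B` and `N` disjoint from `B`, and `K ∩ A = ∅` if and only if `W(K, 0, P, N)`
for some `M`-finite `P ⊆ B` and `N` disjoint from `B`. -/
def Red (A B : Set M) : Prop :=
  ∃ (n : ℕ) (φ : D0 (n + 5)) (v : Fin n → M),
    (∀ K : M, Sub K A ↔ ∃ P N : M, Sub P B ∧ Disj N B ∧
      S1 φ (acons K (acons 1 (acons P (acons N v))))) ∧
    (∀ K : M, Disj K A ↔ ∃ P N : M, Sub P B ∧ Disj N B ∧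
      S1 φ (acons K (acons 0 (acons P (acons N v)))))

end notions

end Pool.Agent.Lib.MP_53c40f_lc
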