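import Pool.Agent.Lib.MP_53c40f_lc.Defs

/-!
# Formulas over the standard model: `Δ₀` formulas are decidable, r.e. predicates are `Σ₁`
-/

set_option autoImplicit false

namespace Pool.Agent.Lib.MP_53c40f_lc

/-- a relation on `ℕ` definable by a `Δ₀` formula -/
def DDef {n : ℕ} (S : (Fin n → ℕ) → Prop) : Prop := ∃ φ : D0 n, ∀ v, φ.eval v ↔ S v

/-- a relation on `ℕ` definable by a `Σ₁` formula -/
def SDef {n : ℕ} (S : (Fin n → ℕ) → Prop) : Prop := ∃ φ : D0 (n + 1), ∀ v, S1 φ v ↔ S v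

theorem DDef.congr {n : ℕ} {S S' : (Fin n → ℕ) → Prop} (h : DDef S) (e : ∀ v, S v ↔ S' v) :
    DDef S' := by
  obtain ⟨φ, hφ⟩ := h
  exact ⟨φ, fun v => (hφ v).trans (e v)⟩

theorem SDef.congr {n : ℕ} {S S' : (Fin n → ℕ) → Prop} (h : SDef S) (e : ∀ v, S v ↔ S' v) :
    SDef S' := by
  obtain ⟨φ, hφ⟩ := h
  exact ⟨φ, fun v => (hφ v).trans (e v)⟩

theorem DDef.eq {n : ℕ} (s t : Tm n) : DDef (fun v => s.eval v = t.eval v) :=
  ⟨.eq s t, fun _ => Iff.rfl⟩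

theorem DDef.lt {n : ℕ} (s t : Tm n) : DDef (fun v => s.eval v < t.eval v) :=
  ⟨.lt s t, fun _ => Iff.rfl⟩

theorem DDef.not {n : ℕ} {S : (Fin n → ℕ) → Prop} (h : DDef S) : DDef (fun v => ¬ S v) := by
  obtain ⟨φ, hφ⟩ := h
  exact ⟨.neg φ, fun v => not_congr (hφ v)⟩

theorem DDef.and {n : ℕ} {S S' : (Fin n → ℕ) → Prop} (h : DDef S) (h' : DDef S') :
    DDef (fun v => S v ∧ S' v) := by
  obtain ⟨φ, hφ⟩ := h
  obtain ⟨ψ, hψ⟩ := h'
  exact ⟨.and φ ψ, fun v => and_congr (hφ v) (hψ v)⟩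

theorem DDef.or {n : ℕ} {S S' : (Fin n → ℕ) → Prop} (h : DDef S) (h' : DDef S') :
    DDef (fun v => S v ∨ S' v) :=
  (h.not.and h'.not).not.congr (fun v => by tauto)

/-- bounded quantifier: `∀ a < t(v), S (a, v)` -/
theorem DDef.ball {n : ℕ} (t : Tm n) {S : (Fin (n + 1) → ℕ) → Prop} (h : DDef S) :
    DDef (fun v : Fin n → ℕ => ∀ a, a < t.eval v → S (acons a v)) := by
  obtain ⟨φ, hφ⟩ := h
  exact ⟨.ball t φ, fun v => forall_congr' (fun a => imp_congr Iff.rfl (hφ _))⟩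

theorem DDef.bex {n : ℕ} (t : Tm n) {S : (Fin (n + 1) → ℕ) → Prop} (h : DDef S) :
    DDef (fun v : Fin n → ℕ => ∃ a, a < t.eval v ∧ S (acons a v)) :=
  (DDef.ball t h.not).not.congr (fun v => by push Not; rfl)

end Pool.Agent.Lib.MP_53c40f_lc
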