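import Pool.Agent.Lib.MP_53c40f_lc.Form0

set_option autoImplicit false

namespace Pool.Agent.Lib.MP_53c40f_lc

/-- substitution of terms in a term -/
def Tm.subst {n m : ℕ} (σ : Fin n → Tm m) : Tm n → Tm m
  | .var i => σ i
  | .zero => .zero
  | .one => .one
  | .add s t => .add (s.subst σ) (t.subst σ)
  | .mul s t => .mul (s.subst σ) (t.subst σ)
  | .exp t => .exp (t.subst σ)

theorem Tm.eval_subst {n m : ℕ} (σ : Fin n → Tm m) (v : Fin m → ℕ) (t : Tm n) :
    (t.subst σ).eval v = t.eval (fun i => (σ i).eval v) := by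
  induction t with
  | var i => rfl
  | zero => rfl
  | one => rfl
  | add s t hs ht => simp only [Tm.subst, Tm.eval, hs, ht]
  | mul s t hs ht => simp only [Tm.subst, Tm.eval, hs, ht]
  | exp t ht => simp only [Tm.subst, Tm.eval, ht]

/-- the substitution below a quantifier -/
def upS {n m : ℕ} (σ : Fin n → Tm m) : Fin (n + 1) → Tm (m + 1) :=
  Fin.cons (.var 0) (fun i => (σ i).subst (fun j => .var j.succ))

theorem eval_upS {n m : ℕ} (σ : Fin n → Tm m) (a : ℕ) (v : Fin m → ℕ) :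
    (fun i => (upS σ i).eval (acons a v)) = acons a (fun i => (σ i).eval v) := by
  funext i
  refine Fin.cases ?_ (fun j => ?_) i
  · rfl
  · change (((σ j).subst (fun j => Tm.var j.succ)).eval (acons a v)) = (σ j).eval v
    rw [Tm.eval_subst]
    rfl

/-- substitution of terms in a `Δ₀` formula -/
def D0.subst : {n : ℕ} → D0 n → {m : ℕ} → (Fin n → Tm m) → D0 m
  | _, .eq s t, _, σ => .eq (s.subst σ) (t.subst σ)
  | _, .lt s t, _, σ => .lt (s.subst σ) (t.subst σ)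
  | _, .neg φ, _, σ => .neg (φ.subst σ)
  | _, .and φ ψ, _, σ => .and (φ.subst σ) (ψ.subst σ)
  | _, .ball t φ, _, σ => .ball (t.subst σ) (φ.subst (upS σ))

theorem D0.eval_subst {n : ℕ} (φ : D0 n) : ∀ {m : ℕ} (σ : Fin n → Tm m) (v : Fin m → ℕ),
    (φ.subst σ).eval v ↔ φ.eval (fun i => (σ i).eval v) := by
  induction φ with
  | eq s t => intro m σ v; simp only [D0.subst, D0.eval, Tm.eval_subst]
  | lt s t => intro m σ v; simp only [D0.subst, D0.eval, Tm.eval_subst]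
  | neg φ ih => intro m σ v; exact not_congr (ih σ v)
  | and φ ψ h1 h2 => intro m σ v; exact and_congr (h1 σ v) (h2 σ v)
  | ball t φ ih =>
    intro m σ v
    simp only [D0.subst, D0.eval, Tm.eval_subst]
    refine forall_congr' fun a => imp_congr Iff.rfl ?_
    rw [ih, eval_upS]

/-- substitution of terms -/
theorem DDef.subst {n m : ℕ} {S : (Fin n → ℕ) → Prop} (h : DDef S) (σ : Fin n → Tm m) :
    DDef (fun v : Fin m → ℕ => S (fun i => (σ i).eval v)) := by
  obtain ⟨φ, hφ⟩ := h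
  exact ⟨φ.subst σ, fun v => (D0.eval_subst φ σ v).trans (hφ _)⟩

theorem SDef.iff {n : ℕ} {S : (Fin n → ℕ) → Prop} : SDef S ↔
    ∃ T : (Fin (n + 1) → ℕ) → Prop, DDef T ∧ ∀ v, (∃ y, T (acons y v)) ↔ S v := by
  constructor
  · rintro ⟨φ, hφ⟩
    exact ⟨fun w => φ.eval w, ⟨φ, fun _ => Iff.rfl⟩, hφ⟩
  · rintro ⟨T, ⟨φ, hφ⟩, hT⟩
    exact ⟨φ, fun v => (exists_congr fun y => hφ _).trans (hT v)⟩

theorem SDef.of_ddef {n : ℕ} {S : (Fin n → ℕ) → Prop} (h : DDef S) : SDef S := by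
  refine SDef.iff.2 ⟨_, h.subst (fun i => Tm.var i.succ), fun v => ?_⟩
  exact ⟨fun ⟨_, h⟩ => h, fun h => ⟨0, h⟩⟩

theorem SDef.subst {n m : ℕ} {S : (Fin n → ℕ) → Prop} (h : SDef S) (σ : Fin n → Tm m) :
    SDef (fun v : Fin m → ℕ => S (fun i => (σ i).eval v)) := by
  obtain ⟨T, hT, h⟩ := SDef.iff.1 h
  refine SDef.iff.2 ⟨_, hT.subst (upS σ), fun v => ?_⟩
  rw [← h]
  refine exists_congr fun y => ?_
  rw [eval_upS]

/-- the substitution inserting a new variable `x₁` -/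
def ins1 {n : ℕ} : Fin (n + 1) → Tm (n + 2) := Fin.cons (.var 0) (fun i => .var i.succ.succ)

theorem eval_ins1 {n : ℕ} (y b : ℕ) (v : Fin n → ℕ) :
    (fun i => (ins1 (n := n) i).eval (acons y (acons b v))) = acons y v := by
  funext i
  refine Fin.cases ?_ (fun j => ?_) i
  · rfl
  · rfl

/-- the substitution inserting a new variable `x₂` -/
def ins2 {n : ℕ} : Fin (n + 2) → Tm (n + 3) :=
  Fin.cons (.var 0) (Fin.cons (.var 1) (fun i => .var i.succ.succ.succ))

theorem eval_ins2 {n : ℕ} (y a b : ℕ) (v : Fin n → ℕ) :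
    (fun i => (ins2 (n := n) i).eval (acons y (acons a (acons b v)))) =
      acons y (acons a v) := by
  funext i
  refine Fin.cases ?_ (fun j => ?_) i
  · rfl
  · refine Fin.cases ?_ (fun k => ?_) j
    · rfl
    · rfl

theorem acons_surj {n : ℕ} (w : Fin (n + 1) → ℕ) : acons (w 0) (fun i => w i.succ) = w :=
  Fin.cons_self_tail w

theorem bdd_ddef {n : ℕ} {T : (Fin (n + 1) → ℕ) → Prop} (h : DDef T) :
    DDef (fun w : Fin (n + 1) → ℕ => ∃ y, y < w 0 + 1 ∧ T (acons y (fun i => w i.succ))) := by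
  refine (DDef.bex (.add (.var 0) .one) (h.subst ins1)).congr fun w => ?_
  refine exists_congr fun y => and_congr Iff.rfl ?_
  conv_lhs => rw [← acons_surj w]
  simp only [eval_ins1]

theorem SDef.and {n : ℕ} {S S' : (Fin n → ℕ) → Prop} (h : SDef S) (h' : SDef S') :
    SDef (fun v => S v ∧ S' v) := by
  obtain ⟨T, hT, h⟩ := SDef.iff.1 h
  obtain ⟨T', hT', h'⟩ := SDef.iff.1 h'
  refine SDef.iff.2 ⟨_, (bdd_ddef hT).and (bdd_ddef hT'), fun v => ?_⟩
  rw [← h, ← h']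
  constructor
  · rintro ⟨b, ⟨y, _, hy⟩, z, _, hz⟩
    exact ⟨⟨y, hy⟩, z, hz⟩
  · rintro ⟨⟨y, hy⟩, z, hz⟩
    refine ⟨y + z, ⟨y, ?_, hy⟩, z, ?_, hz⟩
    · change y < y + z + 1
      omega
    · change z < y + z + 1
      omega

theorem SDef.or {n : ℕ} {S S' : (Fin n → ℕ) → Prop} (h : SDef S) (h' : SDef S') :
    SDef (fun v => S v ∨ S' v) := by
  obtain ⟨T, hT, h⟩ := SDef.iff.1 h
  obtain ⟨T', hT', h'⟩ := SDef.iff.1 h'
  refine SDef.iff.2 ⟨_, hT.or hT', fun v => ?_⟩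
  rw [← h, ← h', exists_or]

theorem SDef.ex {n : ℕ} {S : (Fin (n + 1) → ℕ) → Prop} (h : SDef S) :
    SDef (fun v : Fin n → ℕ => ∃ a, S (acons a v)) := by
  obtain ⟨T, hT, h⟩ := SDef.iff.1 h
  have h1 := DDef.bex (.add (.var 0) .one) (DDef.bex (.add (.var 1) .one) (hT.subst (ins2 (n := n))))
  refine SDef.iff.2 ⟨_, h1, fun v => ?_⟩
  constructor
  · rintro ⟨b, a, _, y, _, hy⟩
    rw [eval_ins2] at hy
    exact ⟨a, (h _).1 ⟨y, hy⟩⟩
  · rintro ⟨a, ha⟩
    obtain ⟨y, hy⟩ := (h _).2 ha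
    refine ⟨a + y, a, ?_, y, ?_, ?_⟩
    · change a < a + y + 1
      omega
    · change y < a + y + 1
      omega
    · rw [eval_ins2]
      exact hy

theorem SDef.ball {n : ℕ} (t : Tm n) {S : (Fin (n + 1) → ℕ) → Prop} (h : SDef S) :
    SDef (fun v : Fin n → ℕ => ∀ a, a < t.eval v → S (acons a v)) := by
  obtain ⟨T, hT, h⟩ := SDef.iff.1 h
  have h1 := DDef.ball (t.subst fun j => Tm.var j.succ)
    (DDef.bex (.add (.var 1) .one) (hT.subst (ins2 (n := n))))
  refine SDef.iff.2 ⟨_, h1, fun v => ?_⟩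
  have ht : ∀ b, (t.subst fun j => Tm.var j.succ).eval (acons b v) = t.eval v := by
    intro b
    rw [Tm.eval_subst]
    rfl
  constructor
  · rintro ⟨b, hb⟩ a ha
    obtain ⟨y, _, hy⟩ := hb a (by rw [ht]; exact ha)
    rw [eval_ins2] at hy
    exact (h _).1 ⟨y, hy⟩
  · intro hv
    have h2 : ∀ a, ∃ y, a < t.eval v → T (acons y (acons a v)) := by
      intro a
      by_cases ha : a < t.eval v
      · obtain ⟨y, hy⟩ := (h _).2 (hv a ha)
        exact ⟨y, fun _ => hy⟩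
      · exact ⟨0, fun h => absurd h ha⟩
    choose f hf using h2
    refine ⟨∑ a ∈ Finset.range (t.eval v), f a, fun a ha => ⟨f a, ?_, ?_⟩⟩
    · rw [ht] at ha
      have h3 : f a ≤ ∑ a ∈ Finset.range (t.eval v), f a :=
        Finset.single_le_sum (fun _ _ => Nat.zero_le _) (Finset.mem_range.2 ha)
      exact Nat.lt_succ_of_le h3
    · rw [eval_ins2]
      rw [ht] at ha
      exact hf a ha

end Pool.Agent.Lib.MP_53c40f_lc
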