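import Pool.Agent.Lib.MP_53c40f_lc.Mg.G005
import Pool.Agent.Lib.MP_53c40f_lc.Mg.G003
import Pool.Agent.Lib.MP_53c40f_lc.Mg.G004

/-!
# The main theorem
-/

set_option autoImplicit false

namespace Pool.Agent.Lib.MP_53c40f_lc

open Filter

/-- the first component of `qq`, iterated -/
theorem qq_drop (c : ℕ → ℕ) (p : ℕ → ℕ → ℕ) (n d k : ℕ) :
    (fun q : ℕ => q.unpair.1)^[d] (qq c p (n + d) k) = qq c p n k := by
  induction d with
  | zero => rfl
  | succ d ih =>
    rw [Function.iterate_succ_apply, ← Nat.add_assoc]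
    simp only [qq, Nat.unpair_pair]
    exact ih

/-- the settling function of the c.e. set number `m`, as a function of the parameters `q` -/
noncomputable def Xi (Γ : Ctx) (m : ℕ) (q : ℕ → ℕ) : ℕ → ℕ :=
  Xf Γ m.unpair.1 (fun k => Nat.pair (Encodable.encode (hist (Γ.c k) m.unpair.2))
    ((fun q : ℕ => q.unpair.1)^[m - m.unpair.2] (q k)))

theorem Xi_eq (Γ : Ctx) (p : ℕ → ℕ → ℕ) (e n : ℕ) :
    Xi Γ (Nat.pair e n) (qq Γ.c p (Nat.pair e n)) = Xf Γ e (GG Γ p n) := by
  unfold Xi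
  simp only [Nat.unpair_pair]
  congr 1
  funext k
  unfold GG
  congr 1
  have h : Nat.pair e n = n + (Nat.pair e n - n) := by
    have := Nat.right_le_pair e n
    omega
  have h2 := qq_drop Γ.c p n (Nat.pair e n - n) k
  rw [← h] at h2
  exact h2

/-- There is a model of `IΣ₁` in which `BΣ₂` fails, and in it a c.e. set `A` strictly below the
complete c.e. set `B` with no c.e. degree strictly between. -/
theorem main : ∃ (M : Type) (_ : Arith M), PAMinusExp M ∧ ISigma1 M ∧ ¬ BSigma2 M ∧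
    ∃ A B : Set M, CE A ∧ CE B ∧ (∀ C : Set M, CE C → Red C B) ∧ ¬ Red B A ∧
      ∀ C : Set M, CE C → Red A C → Red C A ∨ Red B C := by
  obtain ⟨Γ⟩ := exists_ctx
  obtain ⟨p, hp, hnc, hX⟩ := exists_params Γ (Xi Γ)
  have hG := gen_GG Γ p hp
  refine ⟨MM (GG Γ p), inferInstance, paMinus hG, iSigma1 hG, not_bSigma2 Γ p hp hnc,
    Aset Γ p, Kset Γ p, ce_RS hG re_RA (ms_c Γ p hp), ce_RS hG re_RK ?_,
    fun C hC => red_K Γ p hp hC, not_red Γ p hp hnc, ?_⟩
  · exact ⟨0, fun _ => 0, Computable.const 0, Filter.Eventually.of_forall fun _ => rfl⟩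
  · intro C hC hAC
    obtain ⟨e, n, rfl⟩ := ce_index Γ p hp hC
    rcases hX (Nat.pair e n) with h | h
    · rw [Xi_eq] at h
      exact Or.inr (case_two Γ p hp e n (Nat.pair e n) h hAC)
    · rw [Xi_eq] at h
      exact Or.inl (case_one Γ p hp e n (Nat.pair e n) h)

end Pool.Agent.Lib.MP_53c40f_lc
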